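import Pool.Agent.H.MP_c4b7b1_co.C

set_option linter.unusedSectionVars false

namespace Pool.Agent.H.MP_c07d40_pr
open Finset Pool.Agent.H.MP_e84969_co Pool.Agent.H.MP_c4b7b1_co

variable {V : Type} [Fintype V] [DecidableEq V] {G G' H : SimpleGraph V}

def Wk (G : SimpleGraph V) : ℕ → V → V → Prop
  | 0, a, b => a = b
  | k + 1, a, b => Wk G k a b ∨ ∃ c, Wk G k a c ∧ G.Adj c b

lemma Wk.mono {i j : ℕ} {a b : V} (h : Wk G i a b) (hij : i ≤ j) : Wk G j a b := by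
  induction hij with
  | refl => exact h
  | step _ ih => exact Or.inl ih

lemma Wk.rfl' (k : ℕ) (a : V) : Wk G k a a := Wk.mono (i := 0) rfl (Nat.zero_le _)

lemma Wk.step {k : ℕ} {a b c : V} (h : Wk G k a b) (e : G.Adj b c) : Wk G (k + 1) a c :=
  Or.inr ⟨b, h, e⟩

lemma Wk.le (hG : G ≤ H) {k : ℕ} {a : V} : ∀ {b : V}, Wk G k a b → Wk H k a b := by
  induction k with
  | zero => exact id
  | succ k ih => exact fun h => h.imp ih (fun ⟨c, x, y⟩ => ⟨c, ih x, hG y⟩)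

lemma Wk.trans {i j : ℕ} {a b : V} (h : Wk G i a b) : ∀ {c : V}, Wk G j b c → Wk G (i + j) a c := by
  induction j with
  | zero => intro c e; exact e ▸ h
  | succ j ih => exact fun e => e.imp ih (fun ⟨c, x, y⟩ => ⟨c, ih x, y⟩)

lemma Wk.symm {k : ℕ} {a : V} : ∀ {b : V}, Wk G k a b → Wk G k b a := by
  induction k with
  | zero => exact Eq.symm
  | succ k ih =>
    rintro b (h | ⟨c, x, y⟩)
    · exact Or.inl (ih h)
    · exact (((Wk.rfl' 0 b).step y.symm).trans (ih x)).mono (by omega)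

lemma cnt_Wk {d : ℕ} (h : ∀ v, dg G v ≤ d) (k : ℕ) (a : V) : cnt (Wk G k a) ≤ (d + 1) ^ k := by
  induction k with
  | zero => simp [cnt, Wk]
  | succ k ih =>
    have a1 := (cnt_surj (r := fun b => ∃ c, Wk G k a c ∧ G.Adj c b) Prod.snd
      (fun b ⟨c, x⟩ => ⟨(c, b), x, rfl⟩)).trans (pair_up (Wk G k a) G.Adj d
        (fun v _ => by rw [cnt_adj]; exact_mod_cast h v))
    have a2 := cnt_or (p := Wk G (k + 1) a) (fun _ h => h)
    have := mul_le_mul_of_nonneg_right ih (by positivity : (0 : ℝ) ≤ d + 1)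
    rw [pow_succ]; linarith

lemma edist_iff (k : ℕ) (a b : V) : G.edist a b ≤ k ↔ Wk G k a b := by
  constructor
  · intro h
    obtain ⟨p, hp⟩ := SimpleGraph.exists_walk_of_edist_ne_top
      (ne_top_of_le_ne_top (ENat.natCast_ne_top k) h)
    rw [← hp, Nat.cast_le] at h
    refine Wk.mono ?_ h
    clear h hp
    induction p with
    | nil => rfl
    | cons e p ih => exact (((Wk.rfl' 0 _).step e).trans ih).mono (by simp [add_comm])
  · induction k generalizing b with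
    | zero => rintro rfl; simp
    | succ k ih =>
      rintro (h | ⟨c, x, y⟩)
      · exact (ih b h).trans (by simp)
      · refine (SimpleGraph.edist_triangle (v := c)).trans ?_
        push_cast
        exact add_le_add (ih c x) (SimpleGraph.edist_eq_one_iff_adj.2 y).le

lemma del_adj {a b x y : V} : (del G a b).Adj x y ↔ G.Adj x y ∧ s(x, y) ≠ s(a, b) := by
  simp only [del, SimpleGraph.deleteEdges_adj, Set.mem_singleton_iff]

lemma del_le (a b : V) : del G a b ≤ G := fun _ _ h => (del_adj.1 h).1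

lemma Wk.avoid {k : ℕ} {v x : V} (hx : ¬ Wk G k v x) (hH : ∀ a b, G.Adj a b → a ≠ x → b ≠ x → H.Adj a b) :
    ∀ {a : V}, Wk G k v a → Wk H k v a := by
  induction k with
  | zero => exact id
  | succ k ih =>
    have hx' : ¬ Wk G k v x := fun h => hx (Or.inl h)
    rintro a (h | ⟨c, p, q⟩)
    · exact Or.inl (ih hx' h)
    · exact (ih hx' p).step (hH _ _ q (fun e => hx' (e ▸ p)) (fun e => hx (e ▸ p.step q)))

def Bad (L : ℕ) (G : SimpleGraph V) (a b : V) : Prop := G.Adj a b ∧ Wk (del G a b) L a b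

def Sw (H : SimpleGraph V) (T : V → Prop) (m : V → V) (G : SimpleGraph V) : Prop :=
  (∀ t, T t → T (m t) ∧ m t ≠ t ∧ m (m t) = t) ∧ ∀ a b, G.Adj a b ↔ H.Adj a b ∨ (T a ∧ b = m a)

def Sep (H : SimpleGraph V) (T : V → Prop) (L : ℕ) : Prop := ∀ s t, T s → T t → Wk H L s t → s = t

lemma key {T M : V → Prop} {m : V → V} {L : ℕ} {K K0 : SimpleGraph V} (sep : Sep H T L)
    (hm : ∀ t, T t → T (m t) ∧ m t ≠ t ∧ m (m t) = t) (h0 : K0 ≤ H) (hM : ∀ t, M t → T t)
    (hK : ∀ a b, K.Adj a b → K0.Adj a b ∨ (M a ∧ b = m a)) (a : V) (j : ℕ) (hj : j ≤ L) :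
    ∀ c, Wk K j a c → Wk K0 j a c ∨
      ∃ t i1 i2, M t ∧ i1 + i2 + 1 ≤ j ∧ Wk K0 i1 a t ∧ Wk K0 i2 (m t) c := by
  induction j with
  | zero => exact fun c h => Or.inl h
  | succ j ih =>
    rintro c (h | ⟨b, h, e⟩)
    · exact (ih (by omega) c h).imp Or.inl
        (fun ⟨t, i1, i2, x, y, z⟩ => ⟨t, i1, i2, x, by omega, z⟩)
    rcases hK _ _ e with e' | ⟨e', rfl⟩ <;> rcases ih (by omega) b h with h | ⟨t, i1, i2, x, y, z, w⟩
    · exact Or.inl (h.step e')
    · exact Or.inr ⟨t, i1, i2 + 1, x, by omega, z, w.step e'⟩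
    · exact Or.inr ⟨b, j, 0, e', by omega, h, rfl⟩
    · obtain rfl := sep _ _ (hm t (hM t x)).1 (hM b e') ((w.le h0).mono (by omega))
      rw [(hm t (hM t x)).2.2]
      exact Or.inl (z.mono (by omega))

lemma Sw.le {T : V → Prop} {m : V → V} (h : Sw H T m G) : H ≤ G := fun a b e => (h.2 a b).2 (Or.inl e)

lemma bad_sw {T : V → Prop} {m : V → V} {L : ℕ} (h : Sw H T m G') (sep : Sep H T L) {a b : V}
    (x : Bad L G' a b) : Bad L H a b := by
  have k := key (K := del G' a b) (K0 := del H a b) (M := fun t => T t ∧ s(t, m t) ≠ s(a, b)) sep h.1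
    (del_le a b) (fun _ h => h.1) (fun p q e => by
      rw [del_adj, h.2] at e
      rcases e with ⟨e | ⟨e, rfl⟩, e'⟩
      · exact Or.inl (del_adj.2 ⟨e, e'⟩)
      · exact Or.inr ⟨⟨e, e'⟩, rfl⟩) a L le_rfl b x.2
  rcases (h.2 a b).1 x.1 with e | ⟨e, rfl⟩ <;> rcases k with k | ⟨t, i1, i2, ⟨t1, t2⟩, y, z, w⟩
  · exact ⟨e, k⟩
  · exact absurd (sep _ _ (h.1 t t1).1 t1 ((((w.le (del_le a b)).step e.symm).trans
      (z.le (del_le a b))).mono (by omega))) (h.1 t t1).2.1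
  · exact absurd (sep _ _ e (h.1 a e).1 (k.le (del_le _ _))).symm (h.1 a e).2.1
  · obtain rfl := sep _ _ e t1 ((z.le (del_le _ _)).mono (by omega))
    exact absurd rfl t2

lemma Bad.le (hG : H ≤ G) {L : ℕ} {a b : V} (x : Bad L H a b) : Bad L G a b :=
  ⟨hG x.1, x.2.le (fun _ _ e => del_adj.2 ⟨hG (del_adj.1 e).1, (del_adj.1 e).2⟩)⟩

def Iso (H : SimpleGraph V) (k : ℕ) (v x : V) : Prop := ∃ f : V → V, f v = x ∧
  (∀ j ≤ k, Set.BijOn f {a | Wk H j v a} {a | Wk H j x a}) ∧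
    ∀ a b, Wk H k v a → Wk H k v b → (H.Adj a b ↔ H.Adj (f a) (f b))

def RI (r : ℕ) (G G' : SimpleGraph V) (w : V) : Prop := ∃ g : V → V, g w = w ∧
  Set.BijOn g {a | Wk G r w a} {a | Wk G' r w a} ∧
    ∀ a b, Wk G r w a → Wk G r w b → (G.Adj a b ↔ G'.Adj (g a) (g b))

lemma RI.trans {r : ℕ} {w : V} (h : RI r G G' w) (h' : RI r G' H w) : RI r G H w := by
  obtain ⟨f, f1, f2, f3⟩ := h
  obtain ⟨g, g1, g2, g3⟩ := h'
  exact ⟨g ∘ f, by simp [f1, g1], g2.comp f2, fun a b x y =>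
    (f3 a b x y).trans (g3 _ _ (f2.1 x) (f2.1 y))⟩

lemma far {T : V → Prop} {m : V → V} {k : ℕ} (h : Sw H T m G) (sep : Sep H T (2 * (k + 1))) {w : V}
    (hw : ∀ t, T t → ¬ Wk H k w t) : (∀ a, Wk G (k + 1) w a ↔ Wk H (k + 1) w a) ∧
    ∀ a b, Wk H (k + 1) w a → Wk H (k + 1) w b → (G.Adj a b ↔ H.Adj a b) := by
  refine ⟨fun a => ⟨fun x => ?_, Wk.le h.le⟩, fun a b x y => ⟨fun e => ?_, fun e => h.le e⟩⟩
  · refine (key sep h.1 le_rfl (fun _ h => h) (fun a b => (h.2 a b).1) w _ (by omega) a x).elim id ?_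
    rintro ⟨t, i1, i2, t1, y, z, -⟩
    exact absurd (z.mono (by omega)) (hw t t1)
  · refine ((h.2 a b).1 e).elim id ?_
    rintro ⟨e', rfl⟩
    exact absurd (sep _ _ e' (h.1 a e').1 ((x.symm.trans y).mono (by omega))).symm (h.1 a e').2.1

lemma near {T : V → Prop} {m : V → V} {s j : ℕ} (h : Sw H T m G) (sep : Sep H T (2 * (s + j + 1)))
    {w t : V} (ht : T t) (hs : Wk H s w t) (hmin : ∀ i, Wk H i w t → s ≤ i) :
    (∀ a, Wk G (s + j + 1) w a ↔ Wk H (s + j + 1) w a ∨ Wk H j (m t) a) ∧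
    (∀ a, Wk H (s + j + 1) w a → ¬ Wk H j (m t) a) ∧
    (∀ a b, Wk H (s + j + 1) w a → Wk H (s + j + 1) w b → (G.Adj a b ↔ H.Adj a b)) ∧
    (∀ a b, Wk H j (m t) a → Wk H j (m t) b → (G.Adj a b ↔ H.Adj a b)) ∧
    (∀ a b, Wk H (s + j + 1) w a → Wk H j (m t) b → (G.Adj a b ↔ a = t ∧ b = m t)) := by
  obtain ⟨m1, m2, m3⟩ := h.1 t ht
  have f2 : ∀ a, T a → Wk H (s + j + 1) w a → a = t := fun a x y =>
    sep _ _ x ht ((y.symm.trans hs).mono (by omega))
  have f1 : ∀ a, Wk H (s + j + 1) w a → ¬ Wk H (j + 1) (m t) a := fun a x y =>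
    m2 (sep _ _ m1 ht (((y.trans x.symm).trans hs).mono (by omega)))
  have f0 : ∀ a, Wk H (s + j + 1) w a → ¬ Wk H j (m t) a := fun a x y => f1 a x (Or.inl y)
  refine ⟨fun a => ⟨fun x => ?_, fun x => x.elim (Wk.le h.le) (fun x => ?_)⟩, f0,
    fun a b x y => ⟨fun e => ?_, fun e => h.le e⟩, fun a b x y => ⟨fun e => ?_, fun e => h.le e⟩,
    fun a b x y => ⟨fun e => ?_, ?_⟩⟩
  · refine (key sep h.1 le_rfl (fun _ h => h) (fun a b => (h.2 a b).1) w _ (by omega) a x).imp id ?_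
    rintro ⟨t', i1, i2, t1, y, z, u⟩
    obtain rfl := f2 t' t1 (z.mono (by omega))
    have := hmin _ z
    exact u.mono (by omega)
  · exact (((hs.le h.le).step ((h.2 _ _).2 (Or.inr ⟨ht, rfl⟩))).trans (x.le h.le)).mono (by omega)
  · refine ((h.2 a b).1 e).elim id ?_
    rintro ⟨e', rfl⟩
    obtain rfl := f2 a e' x
    exact absurd (Wk.rfl' _ _) (f0 _ y)
  · refine ((h.2 a b).1 e).elim id ?_
    rintro ⟨e', rfl⟩
    obtain rfl := sep _ _ m1 e' (x.mono (by omega))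
    rw [m3] at y
    exact absurd y (f0 _ (hs.mono (by omega)))
  · refine ((h.2 a b).1 e).elim (fun e => absurd (y.step e.symm) (f1 a x)) ?_
    rintro ⟨e', rfl⟩
    obtain rfl := f2 a e' x
    exact ⟨rfl, rfl⟩
  · rintro ⟨rfl, rfl⟩
    exact (h.2 _ _).2 (Or.inr ⟨ht, rfl⟩)

lemma surgery {T : V → Prop} {m m' : V → V} {k : ℕ} (h : Sw H T m G) (h' : Sw H T m' G')
    (sep : Sep H T (2 * (k + 1))) (iso : ∀ s t, T s → T t → Iso H k s t) (w : V) :
    RI (k + 1) G G' w := by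
  classical
  by_cases hw : ∀ t, T t → ¬ Wk H k w t
  · obtain ⟨a1, a2⟩ := far h sep hw
    obtain ⟨b1, b2⟩ := far h' sep hw
    refine ⟨id, rfl, ?_, fun a b x y => ?_⟩
    · simp only [a1, b1]; exact Set.bijOn_id _
    · rw [a1] at x y; exact (a2 a b x y).trans (b2 a b x y).symm
  push Not at hw
  obtain ⟨t, ht, hw⟩ := hw
  have ex : ∃ i, Wk H i w t := ⟨k, hw⟩
  obtain ⟨j, rfl⟩ := Nat.exists_eq_add_of_le (Nat.find_min' ex hw)
  obtain ⟨a1, a2, a3, a4, a5⟩ := near h sep ht (Nat.find_spec ex) (fun i => Nat.find_min' ex)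
  obtain ⟨b1, b2, b3, b4, b5⟩ := near h' sep ht (Nat.find_spec ex) (fun i => Nat.find_min' ex)
  obtain ⟨f, f1, f2, f3⟩ := iso _ _ (h.1 t ht).1 (h'.1 t ht).1
  obtain ⟨g1, g2, g3⟩ := f2 j (by omega)
  have f4 : ∀ b, Wk H j (m t) b → (b = m t ↔ f b = m' t) := fun b x =>
    ⟨fun e => e ▸ f1, fun e => g2 x (Wk.rfl' _ _) (e.trans f1.symm)⟩
  refine ⟨fun a => if Wk H j (m t) a then f a else a, if_neg (a2 _ (Wk.rfl' _ _)),
    ⟨fun a x => ?_, fun a x b y e => ?_, fun z x => ?_⟩, fun a b x y => ?_⟩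
  · simp only [Set.mem_ofPred_eq, a1, b1] at x ⊢
    split_ifs with c
    · exact Or.inr (g1 c)
    · exact Or.inl (x.resolve_right c)
  · simp only [Set.mem_ofPred_eq, a1] at x y e
    split_ifs at e with c d d
    · exact g2 c d e
    · exact absurd (e ▸ g1 c) (b2 b (y.resolve_right d))
    · exact absurd (e ▸ g1 d) (b2 a (x.resolve_right c))
    · exact e
  · simp only [Set.mem_ofPred_eq, b1, Set.mem_image, a1] at x ⊢
    rcases x with x | x
    · exact ⟨z, Or.inl x, if_neg (a2 z x)⟩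
    · obtain ⟨a, p, q⟩ := g3 x
      exact ⟨a, Or.inr p, (if_pos p).trans q⟩
  · rw [a1] at x y
    dsimp only
    split_ifs with c d d
    · exact (a4 a b c d).trans ((f3 a b (c.mono (by omega)) (d.mono (by omega))).trans
        (b4 _ _ (g1 c) (g1 d)).symm)
    · rw [G.adj_comm, G'.adj_comm, a5 b a (y.resolve_right d) c, b5 b _ (y.resolve_right d) (g1 c),
        f4 a c]
    · rw [a5 a b (x.resolve_right c) d, b5 a _ (x.resolve_right c) (g1 d), f4 b d]
    · exact (a3 a b (x.resolve_right c) (y.resolve_right d)).trans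
        (b3 a b (x.resolve_right c) (y.resolve_right d)).symm

def TL (H : SimpleGraph V) (k c : ℕ) (v : V) : Prop := dg H v = c ∧
  (∀ a, Wk H k v a → a ≠ v → dg H a = c + 1) ∧ ∀ a b, Wk H k v a → ¬ Bad (2 * k) H a b

lemma TL.u1 {k c j : ℕ} {v a a' b : V} (h : TL H k c v) (hj : j + 1 ≤ k) (x : Wk H j v a)
    (x' : Wk H j v a') (y : ¬ Wk H j v b) (e : H.Adj a b) (e' : H.Adj a' b) : a = a' := by
  by_contra n
  have k : ∀ {z}, Wk H j v z → Wk (del H a b) j v z := Wk.avoid y (fun p q r s t =>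
    del_adj.2 ⟨r, by simp [s, t]⟩)
  exact h.2.2 a b (x.mono (by omega)) ⟨e, (((k x).symm.trans (k x')).step (del_adj.2
    ⟨e', by simp [Ne.symm n, e'.ne]⟩)).mono (by omega)⟩

lemma TL.u2 {k c j : ℕ} {v b b' : V} (h : TL H k c v) (hj : j + 1 ≤ k) (x : Wk H (j + 1) v b)
    (x' : Wk H (j + 1) v b') (y : ¬ Wk H j v b) (y' : ¬ Wk H j v b') : ¬ H.Adj b b' := by
  intro e
  have k : ∀ {z}, Wk H (j + 1) v z → ¬ Wk H j v z → Wk (del H b b') (j + 1) v z := by
    intro z p q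
    obtain ⟨a, p1, p2⟩ := p.resolve_left q
    have n1 : a ≠ b := fun e => y (e ▸ p1)
    have n2 : a ≠ b' := fun e => y' (e ▸ p1)
    exact (Wk.avoid y (fun p q r s t => del_adj.2 ⟨r, by simp [s, t]⟩) p1).step
      (del_adj.2 ⟨p2, by simp [n1, n2]⟩)
  exact h.2.2 b b' (x.mono hj) ⟨e, ((k x y).symm.trans (k x' y')).mono (by omega)⟩

lemma cnt_split {α : Type} [Finite α] (p q : α → Prop) :
    cnt p = cnt (fun a => p a ∧ q a) + cnt (fun a => p a ∧ ¬ q a) := by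
  classical
  have := Fintype.ofFinite α
  simp only [cnt_eq_card]
  rw [← filter_filter, ← filter_filter, ← Nat.cast_add, card_filter_add_card_filter_not]

lemma tree_iso {k c : ℕ} {v x : V} (h : TL H k c v) (h' : TL H k c x) (j : ℕ) (hj : j ≤ k) :
    Iso H j v x := by
  classical
  induction j with
  | zero =>
    refine ⟨fun _ => x, rfl, fun j hj => ?_, ?_⟩
    · obtain rfl : j = 0 := by omega
      exact ⟨fun _ _ => rfl, fun a p b q _ => Eq.trans (Eq.symm p) q, fun z p => ⟨v, rfl, p⟩⟩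
    · rintro a b rfl rfl; simp
  | succ j ih =>
    obtain ⟨f, f1, f2, f3⟩ := ih (by omega)
    obtain ⟨g1, g2, g3⟩ := f2 j le_rfl
    have he : ∀ a, ∃ e : V → V, Wk H j v a → Set.BijOn e {b | H.Adj a b ∧ ¬ Wk H j v b}
        {b | H.Adj (f a) b ∧ ¬ Wk H j x b} := by
      intro a
      by_cases p : Wk H j v a
      swap
      · exact ⟨id, fun q => absurd q p⟩
      have d : dg H a = dg H (f a) := by
        by_cases e : a = v
        · rw [e, f1, h.1, h'.1]
        · rw [h.2.1 a (p.mono (by omega)) e, h'.2.1 _ (Wk.mono (g1 p) (by omega))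
            (fun q => e (g2 p (Wk.rfl' _ _) (q.trans f1.symm)))]
      have s1 := cnt_split (H.Adj a) (Wk H j v)
      have s2 := cnt_split (H.Adj (f a)) (Wk H j x)
      have s3 : cnt (fun b => H.Adj a b ∧ Wk H j v b) = cnt (fun b => H.Adj (f a) b ∧ Wk H j x b) :=
        le_antisymm (cnt_inj f (fun b q => ⟨(f3 a b p q.2).1 q.1, g1 q.2⟩)
          (fun _ _ q r => g2 q.2 r.2)) (cnt_surj f (fun z q => by
            obtain ⟨b, b1, rfl⟩ := g3 q.2
            exact ⟨b, ⟨(f3 a b p b1).2 q.1, b1⟩, rfl⟩))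
      rw [cnt_adj, s3, d] at s1
      rw [cnt_adj, s1, add_right_inj] at s2
      have : Nonempty V := ⟨v⟩
      obtain ⟨e, he⟩ := Set.Finite.exists_bijOn_of_encard_eq (s := {b | H.Adj a b ∧ ¬ Wk H j v b})
        (t := {b | H.Adj (f a) b ∧ ¬ Wk H j x b}) (Set.toFinite _) (by
          rw [← (Set.toFinite _).cast_ncard_eq, ← (Set.toFinite _).cast_ncard_eq]
          unfold cnt at s2
          exact_mod_cast s2)
      exact ⟨e, fun _ => he⟩
    choose e he using he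
    have hp : ∀ b, ∃ a, Wk H (j + 1) v b → ¬ Wk H j v b → Wk H j v a ∧ H.Adj a b := fun b => by
      by_cases p : Wk H (j + 1) v b ∧ ¬ Wk H j v b
      · obtain ⟨a, q⟩ := p.1.resolve_left p.2; exact ⟨a, fun _ _ => q⟩
      · exact ⟨b, fun s t => absurd ⟨s, t⟩ p⟩
    choose par hp using hp
    have n1 : ∀ b, Wk H (j + 1) v b → ¬ Wk H j v b →
        H.Adj (f (par b)) (e (par b) b) ∧ ¬ Wk H j x (e (par b) b) := fun b p q =>
      (he _ (hp b p q).1).1 ⟨(hp b p q).2, q⟩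
    have n2 : ∀ a b, Wk H j v a → Wk H (j + 1) v b → ¬ Wk H j v b →
        (H.Adj a b ↔ H.Adj (f a) (e (par b) b)) := fun a b p q r =>
      ⟨fun s => h.u1 hj p (hp b q r).1 r s (hp b q r).2 ▸ (n1 b q r).1, fun s =>
        g2 p (hp b q r).1 (h'.u1 hj (g1 p) (g1 (hp b q r).1) (n1 b q r).2 s (n1 b q r).1) ▸
          (hp b q r).2⟩
    have n3 : ∀ b, Wk H (j + 1) v b → ¬ Wk H j v b → Wk H (j + 1) x (e (par b) b) := fun b p q =>
      Wk.step (g1 (hp b p q).1) (n1 b p q).1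
    refine ⟨fun b => if Wk H j v b then f b else e (par b) b, (if_pos (Wk.rfl' _ _)).trans f1,
      fun i hi => ?_, fun a b p q => ?_⟩
    · rcases Nat.lt_or_eq_of_le hi with hi | rfl
      · exact (f2 i (by omega)).congr (fun a p => (if_pos (Wk.mono p (by omega))).symm)
      refine ⟨fun b p => ?_, fun a p b q s => ?_, fun z p => ?_⟩
      · simp only [Set.mem_ofPred_eq]
        split_ifs with t
        · exact Or.inl (g1 t)
        · exact n3 b p t
      · dsimp only at s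
        split_ifs at s with t u u
        · exact g2 t u s
        · exact absurd (s ▸ g1 t) (n1 b q u).2
        · exact absurd (s ▸ g1 u) (n1 a p t).2
        · have := g2 (hp a p t).1 (hp b q u).1 (h'.u1 hj (g1 (hp a p t).1) (g1 (hp b q u).1)
            (n1 b q u).2 (s ▸ (n1 a p t).1) (n1 b q u).1)
          rw [this] at s
          exact (he _ (hp b q u).1).2.1 ⟨this ▸ (hp a p t).2, t⟩ ⟨(hp b q u).2, u⟩ s
      · by_cases t : Wk H j x z
        · obtain ⟨a, p, q⟩ := g3 t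
          exact ⟨a, Or.inl p, (if_pos p).trans q⟩
        · obtain ⟨a', p1, p2⟩ := p.resolve_left t
          obtain ⟨a, p3, rfl⟩ := g3 p1
          obtain ⟨b, ⟨b1, b2⟩, rfl⟩ := (he a p3).2.2 ⟨p2, t⟩
          have q := Wk.step p3 b1
          exact ⟨b, q, (if_neg b2).trans (by rw [h.u1 hj (hp b q b2).1 p3 b2 (hp b q b2).2 b1])⟩
    · dsimp only
      split_ifs with t u u
      · exact f3 a b t u
      · exact n2 a b t q u
      · rw [H.adj_comm, n2 b a u p t, H.adj_comm]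
      · exact iff_of_false (h.u2 hj p q t u) (h'.u2 hj (n3 a p t) (n3 b q u) (n1 a p t).2 (n1 b q u).2)

end Pool.Agent.H.MP_c07d40_pr
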