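import Pool.Agent.H.MP_c07d40_pr.A

set_option linter.unusedSectionVars false

namespace Pool.Agent.H.MP_c07d40_pr
open Finset Pool.Agent.H.MP_e84969_co Pool.Agent.H.MP_c4b7b1_co

variable {V : Type} [Fintype V] [DecidableEq V] {G G' H : SimpleGraph V}

def sw (G : SimpleGraph V) (u v x y : V) : SimpleGraph V :=
  del (del G u v) x y ⊔ SimpleGraph.fromEdgeSet {s(u, x), s(v, y)}

def Val (G : SimpleGraph V) (u v x y : V) : Prop :=
  G.Adj u v ∧ G.Adj x y ∧ ¬ G.Adj u x ∧ ¬ G.Adj v y ∧ u ≠ x ∧ v ≠ y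

lemma Val.ne {u v x y : V} (h : Val G u v x y) : u ≠ v ∧ x ≠ y ∧ u ≠ y ∧ v ≠ x :=
  ⟨h.1.ne, h.2.1.ne, fun e => h.2.2.1 (e ▸ h.2.1.symm), fun e => h.2.2.1 (e ▸ h.1)⟩

lemma Val.adj {u v x y : V} (h : Val G u v x y) (a b : V) : (sw G u v x y).Adj a b ↔
    (del (del G u v) x y).Adj a b ∨ s(a, b) = s(u, x) ∨ s(a, b) = s(v, y) := by
  have := h.2.2.2.2
  simp only [sw, SimpleGraph.sup_adj, SimpleGraph.fromEdgeSet_adj, Set.mem_insert_iff,
    Set.mem_singleton_iff, Sym2.eq_iff]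
  grind

lemma adj_del {u v x y : V} (h : G.Adj u v) (h' : G.Adj x y) (a b : V) : G.Adj a b ↔
    (del (del G u v) x y).Adj a b ∨ s(a, b) = s(u, v) ∨ s(a, b) = s(x, y) := by
  have := h.symm; have := h'.symm
  simp only [del_adj, ne_eq, Sym2.eq_iff]
  grind

lemma Val.dd {u v x y : V} (h : Val G u v x y) :
    del (del (sw G u v x y) u x) v y = del (del G u v) x y := by
  ext a b
  obtain ⟨h1, h2, h3, h4, h5, h6⟩ := id h
  have := G.adj_comm a b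
  simp only [del_adj, h.adj, ne_eq, Sym2.eq_iff]
  grind

lemma Val.a1 {u v x y : V} (h : Val G u v x y) : (sw G u v x y).Adj u x := (h.adj _ _).2 (by simp)
lemma Val.a2 {u v x y : V} (h : Val G u v x y) : (sw G u v x y).Adj v y := (h.adj _ _).2 (by simp)

lemma dg_dd {u v x y : V} (h : G.Adj u v) (h' : G.Adj x y) (n : u ≠ x) (n' : u ≠ y) (a : V) :
    dg G a = dg (del (del G u v) x y) a + (if a = u then 1 else 0) + (if a = v then 1 else 0) +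
      (if a = x then 1 else 0) + (if a = y then 1 else 0) := by
  have := dg_del h a
  have := dg_del (del_adj.2 ⟨h', by simp [n.symm, n'.symm]⟩ : (del G u v).Adj x y) a
  omega

lemma Val.dg {u v x y : V} (h : Val G u v x y) (a : V) : dg (sw G u v x y) a = dg G a := by
  obtain ⟨n1, n2, n3, n4⟩ := h.ne
  have a1 := dg_dd h.1 h.2.1 h.2.2.2.2.1 n3 a
  have a2 := dg_dd h.a1 h.a2 n1 n3 a
  rw [h.dd] at a2
  omega

lemma Val.inj {u v x y : V} (h : Val G u v x y) (h' : Val G' u v x y)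
    (e : sw G u v x y = sw G' u v x y) : G = G' := by
  ext a b
  rw [adj_del h.1 h.2.1, adj_del h'.1 h'.2.1, ← h.dd, ← h'.dd, e]

def Reg (d : ℕ) (G : SimpleGraph V) : Prop := ∀ v, dg G v = d

lemma Reg.e {d : ℕ} (h : Reg d G) : Fintype.card V * (d : ℝ) ≤ cnt (fun z : V × V => G.Adj z.1 z.2) := by
  have := pair_lo (fun _ : V => True) G.Adj d (fun v _ => by rw [cnt_adj, h])
  simpa [cnt_true] using this

lemma Reg.l {d : ℕ} (h : Reg d G) (p : V → Prop) :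
    cnt (fun z : V × V => G.Adj z.1 z.2 ∧ p z.1) ≤ cnt p * d :=
  (cnt_mono (fun _ h => h.symm)).trans (pair_up p G.Adj d (fun v _ => by rw [cnt_adj, h]))

lemma Reg.r {d : ℕ} (h : Reg d G) (p : V → Prop) :
    cnt (fun z : V × V => G.Adj z.1 z.2 ∧ p z.2) ≤ cnt p * d :=
  (cnt_inj Prod.swap (fun _ h => ⟨h.1.symm, h.2⟩) (fun _ _ _ _ e => Prod.swap_injective e)).trans
    (h.l p)

lemma Reg.w {d : ℕ} (h : Reg d G) (k : ℕ) (a : V) : cnt (Wk G k a) ≤ (d + 1) ^ k :=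
  cnt_Wk (fun v => (h v).le) k a

lemma cnt_sub {α : Type} [Finite α] (p q : α → Prop) :
    cnt p - cnt (fun a => p a ∧ q a) ≤ cnt (fun a => p a ∧ ¬ q a) := by
  rw [cnt_split p q]; linarith

noncomputable def nb (L : ℕ) (G : SimpleGraph V) : ℝ := cnt (fun z : V × V => Bad L G z.1 z.2)

lemma fm (d L : ℕ) (hd : 1 ≤ d) (hn : 4 * (d + 1 : ℝ) ^ L ≤ Fintype.card V) :
    cnt (fun z : SimpleGraph V × V × V => Reg d z.1 ∧ Bad L z.1 z.2.1 z.2.2) ≤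
      cnt (Reg (V := V) d) * (2 * d * (d + 1) ^ L) := by
  have := cnt_nonneg (Reg (V := V) d)
  rcases L with _ | L
  · rw [cnt_false (fun z h => h.2.1.ne h.2.2)]; positivity
  have d1 : (1 : ℝ) ≤ d := by exact_mod_cast hd
  have p1 : (d + 1 : ℝ) ^ 1 ≤ (d + 1) ^ (L + 1) := pow_le_pow_right₀ (by linarith) (by omega)
  have n0 : (0 : ℝ) < Fintype.card V := lt_of_lt_of_le (by positivity) hn
  have a1 := pair_lo (fun z : SimpleGraph V × V × V => Reg d z.1 ∧ Bad (L + 1) z.1 z.2.1 z.2.2)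
    (fun z (e : V × V) => (z.1.Adj e.1 e.2 ∧ ¬ Wk z.1 (L + 1) z.2.1 e.1) ∧ ¬ Wk z.1 1 z.2.2 e.2)
    (Fintype.card V * d / 2) (fun ⟨G, u, v⟩ ⟨h, _⟩ => by
      have b1 := cnt_sub (fun e : V × V => G.Adj e.1 e.2) (fun e => Wk G (L + 1) u e.1)
      have b2 := cnt_sub (fun e : V × V => G.Adj e.1 e.2 ∧ ¬ Wk G (L + 1) u e.1)
        (fun e => Wk G 1 v e.2)
      have b3 := (h.l _).trans (mul_le_mul_of_nonneg_right (h.w (L + 1) u) (by positivity))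
      have b4 := (cnt_mono (p := fun e : V × V => (G.Adj e.1 e.2 ∧ ¬ Wk G (L + 1) u e.1) ∧
        Wk G 1 v e.2) (fun e h => ⟨h.1.1, h.2⟩)).trans
        ((h.r _).trans (mul_le_mul_of_nonneg_right ((h.w 1 v).trans p1) (by positivity)))
      have b5 := h.e
      dsimp only at *
      nlinarith)
  have a2 := pair_up (Reg (V := V) d) (fun G (e : (V × V) × V × V) =>
    Wk G (L + 1) e.1.1 e.1.2 ∧ G.Adj e.1.1 e.2.1 ∧ G.Adj e.1.2 e.2.2)
    (Fintype.card V * (d + 1) ^ (L + 1) * (d * d)) (fun G h => by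
      refine (pair_up (fun e : V × V => Wk G (L + 1) e.1 e.2)
        (fun e (f : V × V) => G.Adj e.1 f.1 ∧ G.Adj e.2 f.2) (d * d) (fun e _ => ?_)).trans ?_
      · refine (pair_up (G.Adj e.1) (fun _ => G.Adj e.2) d (fun _ _ => ?_)).trans ?_ <;>
          rw [cnt_adj, h]
      · have := pair_up (fun _ : V => True) (Wk G (L + 1)) _ (fun v _ => h.w (L + 1) v)
        simp only [true_and, cnt_true] at this
        gcongr)
  have a3 := a1.trans (le_trans (cnt_inj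
    (fun z => (sw z.1.1 z.1.2.1 z.1.2.2 z.2.1 z.2.2, z.1.2, z.2)) ?_ ?_) a2)
  · refine le_of_mul_le_mul_right (a3.trans (le_of_eq ?_))
      (by positivity : (0 : ℝ) < Fintype.card V * d / 2)
    ring
  all_goals
    have k : ∀ (G : SimpleGraph V) u v x y, Bad (L + 1) G u v →
        (G.Adj x y ∧ ¬ Wk G (L + 1) u x) ∧ ¬ Wk G 1 v y → Val G u v x y :=
      fun G u v x y a b => ⟨a.1, b.1.1, fun e => b.1.2 ((Wk.rfl' _ _).step e),
        fun e => b.2 ((Wk.rfl' _ _).step e), fun e => b.1.2 (e ▸ Wk.rfl' _ _),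
        fun e => b.2 (e ▸ Wk.rfl' _ _)⟩
  · rintro ⟨⟨G, u, v⟩, x, y⟩ ⟨⟨h, a⟩, b⟩
    have c := k _ _ _ _ _ a b
    exact ⟨fun w => (c.dg w).trans (h w), Wk.avoid (fun e => b.1.2 (e.le (del_le _ _)))
      (fun p q r s t => (c.adj _ _).2 (Or.inl (del_adj.2 ⟨r, by simp [s, t]⟩))) a.2, c.a1, c.a2⟩
  · rintro ⟨⟨G, u, v⟩, x, y⟩ ⟨⟨G', u', v'⟩, x', y'⟩ ⟨⟨h, a⟩, b⟩ ⟨⟨h', a'⟩, b'⟩ e
    simp only [Prod.mk.injEq] at e ⊢
    obtain ⟨e, ⟨rfl, rfl⟩, rfl, rfl⟩ := e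
    exact ⟨⟨(k _ _ _ _ _ a b).inj (k _ _ _ _ _ a' b') e, rfl, rfl⟩, rfl, rfl⟩

lemma markov (d L : ℕ) (hd : 1 ≤ d) (hn : 4 * (d + 1 : ℝ) ^ L ≤ Fintype.card V) (t : ℝ) :
    cnt (fun G : SimpleGraph V => Reg d G ∧ t < nb L G) * t ≤
      cnt (Reg (V := V) d) * (2 * d * (d + 1) ^ L) :=
  (pair_lo _ (fun G (e : V × V) => Bad L G e.1 e.2) t (fun _ h => h.2.le)).trans
    ((cnt_mono (fun _ h => ⟨h.1.1, h.2⟩)).trans (fm d L hd hn))

lemma mkSw {T : V → Prop} {u v x y : V} (hT : ∀ t, T t ↔ t = u ∨ t = v ∨ t = x ∨ t = y)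
    (n : u ≠ v ∧ x ≠ y ∧ u ≠ y ∧ v ≠ x ∧ u ≠ x ∧ v ≠ y)
    (h : ∀ a b, G.Adj a b ↔ H.Adj a b ∨ s(a, b) = s(u, v) ∨ s(a, b) = s(x, y)) :
    ∃ m, Sw H T m G := by
  refine ⟨fun t => if t = u then v else if t = v then u else if t = x then y else x,
    fun t ht => ?_, fun a b => ?_⟩
  · simp only [hT] at ht ⊢
    grind
  · simp only [h, hT, Sym2.eq_iff]
    grind

def Near (k : ℕ) (G : SimpleGraph V) (v : V) : Prop := ∃ a b, Wk G k v a ∧ Bad (2 * k) G a b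

lemma cnt_near {d : ℕ} (h : Reg d G) (k : ℕ) : cnt (Near k G) ≤ nb (2 * k) G * (d + 1) ^ k :=
  cnt_union _ (fun z => Wk G k z.1) _ (fun _ ⟨a, b, x, y⟩ => ⟨(a, b), y, x.symm⟩)
    (fun z _ => h.w k z.1)

def P1 (k : ℕ) (G : SimpleGraph V) (u v : V) : Prop :=
  G.Adj u v ∧ ¬ Bad (2 * (k + 1)) G u v ∧ ¬ Near k G u ∧ ¬ Near k G v

def P2 (L : ℕ) (G : SimpleGraph V) (u v x y : V) : Prop :=
  ¬ Wk G L u x ∧ ¬ Wk G L v x ∧ ¬ Wk G L u y ∧ ¬ Wk G L v y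

lemma P2.val {k : ℕ} {u v x y : V} (h : P2 (2 * (k + 1)) G u v x y) (a : G.Adj u v) (b : G.Adj x y) :
    Val G u v x y :=
  ⟨a, b, fun e => h.1 (((Wk.rfl' 0 _).step e).mono (by omega)),
    fun e => h.2.2.2 (((Wk.rfl' 0 _).step e).mono (by omega)), fun e => h.1 (e ▸ Wk.rfl' _ _),
    fun e => h.2.2.2 (e ▸ Wk.rfl' _ _)⟩

lemma step {k c : ℕ} {u v x y : V} (h : Reg (c + 1) G) (a : P1 k G u v) (b : P1 k G x y)
    (p : P2 (2 * (k + 1)) G u v x y) : (∀ w, RI (k + 1) G (sw G u v x y) w) ∧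
      ∀ L ≤ 2 * (k + 1), nb L (sw G u v x y) ≤ nb L G := by
  have cv := p.val a.1 b.1
  obtain ⟨n1, n2, n3, n4⟩ := cv.ne
  obtain ⟨-, -, -, -, n5, n6⟩ := id cv
  obtain ⟨m, hm⟩ := mkSw (fun _ => Iff.rfl) ⟨n1, n2, n3, n4, n5, n6⟩ (adj_del a.1 b.1)
  obtain ⟨m', hm'⟩ := mkSw (T := fun t => t = u ∨ t = v ∨ t = x ∨ t = y) (fun _ => by tauto)
    ⟨n5, n6, n3, n4.symm, n1, n2⟩ cv.adj
  have l := hm.le
  have l1 : del (del G u v) x y ≤ del G u v := del_le _ _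
  have l2 : del (del G u v) x y ≤ del G x y := fun _ _ e => del_adj.2 ⟨l e, (del_adj.1 e).2⟩
  have sep : Sep (del (del G u v) x y) (fun t => t = u ∨ t = v ∨ t = x ∨ t = y) (2 * (k + 1)) := by
    obtain ⟨p1, p2, p3, p4⟩ := p
    have q1 := fun e => a.2.1 ⟨a.1, Wk.le l1 e⟩
    have q2 := fun e => b.2.1 ⟨b.1, Wk.le l2 e⟩
    have q3 := fun e => p1 (Wk.le l e)
    have q4 := fun e => p2 (Wk.le l e)
    have q5 := fun e => p3 (Wk.le l e)
    have q6 := fun e => p4 (Wk.le l e)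
    intro s t hs ht e
    have e' := e.symm
    grind
  have D := fun w => (h w).symm.trans (dg_dd a.1 b.1 n5 n3 w)
  have tl : ∀ t, (t = u ∨ t = v ∨ t = x ∨ t = y) → TL (del (del G u v) x y) k c t := by
    intro t ht
    refine ⟨by have := D t; grind, fun w q r => ?_, fun w z q r => ?_⟩
    · have := fun e => r (sep t w ht e (q.mono (by omega))).symm
      have := D w
      grind
    · have : Near k G t := ⟨w, z, q.le l, r.le l⟩
      have := a.2.2; have := b.2.2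
      grind
  exact ⟨surgery hm hm' sep (fun s t p q => tree_iso (tl s p) (tl t q) k le_rfl), fun L hL =>
    cnt_mono (fun z e => (bad_sw hm' (fun s t p q r => sep s t p q (r.mono hL)) e).le l)⟩

def Gd (k d : ℕ) (G : SimpleGraph V) : Prop := Reg d G ∧
  nb (2 * (k + 1)) G ≤ Fintype.card V * d / 100 ∧ nb (2 * k) G * (d + 1) ^ k ≤ Fintype.card V / 100

def Df (G0 G : SimpleGraph V) (z : V × V) : Prop := G.Adj z.1 z.2 ∧ ¬ G0.Adj z.1 z.2

def CC (k d : ℕ) (G0 : SimpleGraph V) (i : ℕ) (G : SimpleGraph V) : Prop :=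
  Gd k d G ∧ (∀ w, RI (k + 1) G0 G w) ∧ cnt (Df G0 G) ≤ 4 * i

lemma Gd.p1 {k d : ℕ} (h : Gd k d G) :
    Fintype.card V * d * (97 / 100) ≤ cnt (fun z : V × V => P1 k G z.1 z.2) := by
  have a1 := mul_le_mul_of_nonneg_right ((cnt_near h.1 k).trans h.2.2) (Nat.cast_nonneg d)
  have a2 := (h.1.l _).trans a1
  have a3 := (h.1.r _).trans a1
  have a4 := h.1.e.trans ((cnt_or (r := fun z : V × V => P1 k G z.1 z.2)
    (s := fun z => Bad (2 * (k + 1)) G z.1 z.2 ∨ (G.Adj z.1 z.2 ∧ Near k G z.1) ∨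
      (G.Adj z.1 z.2 ∧ Near k G z.2)) (fun z h => by unfold P1; tauto)).trans (add_le_add le_rfl
        ((cnt_or (fun _ h => h)).trans (add_le_add h.2.1 (cnt_or (fun _ h => h))))))
  linarith

lemma cnt_e (a b : V) : cnt (fun z : V × V => s(z.1, z.2) = s(a, b)) ≤ 2 := by
  refine (cnt_or (r := fun z => z = (a, b)) (s := fun z => z = (b, a))
    (fun z h => by simpa [Prod.ext_iff] using h)).trans ?_
  simp [cnt]; norm_num

lemma grow {k c : ℕ} {G0 : SimpleGraph V} (h0 : Reg (c + 1) G0)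
    (hn : 100 * ((c + 1 : ℕ) + 1 : ℝ) ^ (2 * (k + 1)) ≤ Fintype.card V) (i : ℕ) :
    cnt (CC k (c + 1) G0 i) * (Fintype.card V * (c + 1 : ℕ) / 2 * (Fintype.card V * (c + 1 : ℕ) / 2)) ≤
      cnt (CC k (c + 1) G0 (i + 1)) * ((4 * (i + 1 : ℕ)) * (4 * (i + 1 : ℕ))) := by
  refine (pair_lo _ (fun G (e : (V × V) × V × V) => P1 k G e.1.1 e.1.2 ∧ P1 k G e.2.1 e.2.2 ∧
    P2 (2 * (k + 1)) G e.1.1 e.1.2 e.2.1 e.2.2 ∧ ¬ G0.Adj e.1.1 e.2.1 ∧ ¬ G0.Adj e.1.2 e.2.2) _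
    (fun G hG => ?_)).trans (le_trans (cnt_inj (fun z => (sw z.1 z.2.1.1 z.2.1.2 z.2.2.1 z.2.2.2,
      (z.2.1.1, z.2.2.1), (z.2.1.2, z.2.2.2))) ?_ ?_) (pair_up _
        (fun G (e : (V × V) × V × V) => Df G0 G e.1 ∧ Df G0 G e.2) _ (fun G hG =>
          (pair_up _ (fun _ => Df G0 G) _ (fun _ _ => hG.2.2)).trans
            (mul_le_mul_of_nonneg_right hG.2.2 (by positivity)))))
  · have a1 := hG.1.p1
    have h := hG.1.1
    generalize c + 1 = d at *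
    have d0 : (0 : ℝ) ≤ d := by positivity
    have d1 : (d + 1 : ℝ) ^ 1 ≤ (d + 1) ^ (2 * (k + 1)) := pow_le_pow_right₀ (by linarith) (by omega)
    have w : ∀ u, cnt (Wk G (2 * (k + 1)) u) * d ≤ Fintype.card V / 100 * d := fun u =>
      mul_le_mul_of_nonneg_right ((h.w _ u).trans (by linarith)) d0
    have w' : ∀ u, cnt (G0.Adj u) * d ≤ Fintype.card V / 100 * d := fun u =>
      mul_le_mul_of_nonneg_right (by rw [cnt_adj, h0]; linarith) d0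
    refine le_trans (mul_le_mul_of_nonneg_right (by nlinarith [Nat.cast_nonneg (α := ℝ) (Fintype.card V)])
      (by positivity)) (pair_lo (fun e : V × V => P1 k G e.1 e.2)
      (fun e (f : V × V) => P1 k G f.1 f.2 ∧ P2 (2 * (k + 1)) G e.1 e.2 f.1 f.2 ∧ ¬ G0.Adj e.1 f.1 ∧
        ¬ G0.Adj e.2 f.2) _ (fun ⟨u, v⟩ _ => ?_))
    have b := a1.trans ((cnt_or (r := fun f : V × V => P1 k G f.1 f.2 ∧
      P2 (2 * (k + 1)) G u v f.1 f.2 ∧ ¬ G0.Adj u f.1 ∧ ¬ G0.Adj v f.2)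
      (s := fun f => (G.Adj f.1 f.2 ∧ Wk G (2 * (k + 1)) u f.1) ∨
        (G.Adj f.1 f.2 ∧ Wk G (2 * (k + 1)) v f.1) ∨ (G.Adj f.1 f.2 ∧ G0.Adj u f.1) ∨
        (G.Adj f.1 f.2 ∧ Wk G (2 * (k + 1)) u f.2) ∨ (G.Adj f.1 f.2 ∧ Wk G (2 * (k + 1)) v f.2) ∨
        (G.Adj f.1 f.2 ∧ G0.Adj v f.2)) (fun z h => by have := h.1; unfold P2; tauto)).trans
      (add_le_add le_rfl ((cnt_or (fun _ h => h)).trans (add_le_add ((h.l _).trans (w u))
      ((cnt_or (fun _ h => h)).trans (add_le_add ((h.l _).trans (w v))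
      ((cnt_or (fun _ h => h)).trans (add_le_add ((h.l _).trans (w' u))
      ((cnt_or (fun _ h => h)).trans (add_le_add ((h.r _).trans (w u))
      ((cnt_or (fun _ h => h)).trans (add_le_add ((h.r _).trans (w v))
      ((h.r _).trans (w' v))))))))))))))
    nlinarith [Nat.cast_nonneg (α := ℝ) (Fintype.card V)]
  · rintro ⟨G, ⟨u, v⟩, x, y⟩ ⟨⟨⟨h, g1, g2⟩, g3, g4⟩, a, b, p, q, r⟩
    have cv := p.val a.1 b.1
    obtain ⟨s1, s2⟩ := step h a b p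
    refine ⟨⟨⟨fun w => (cv.dg w).trans (h w), (s2 _ le_rfl).trans g1, le_trans
      (mul_le_mul_of_nonneg_right (s2 _ (by omega)) (by positivity)) g2⟩,
      fun w => (g3 w).trans (s1 w), ?_⟩, ⟨cv.a1, q⟩, cv.a2, r⟩
    refine ((cnt_or (r := Df G0 G) (s := fun z => s(z.1, z.2) = s(u, x) ∨ s(z.1, z.2) = s(v, y))
      (fun z e => ((cv.adj _ _).1 e.1).imp_left (fun f => ⟨del_le _ _ (del_le _ _ f), e.2⟩))).trans
      (add_le_add g4 ((cnt_or (fun _ h => h)).trans (add_le_add (cnt_e _ _) (cnt_e _ _))))).trans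
      (le_of_eq ?_)
    push_cast; ring
  · rintro ⟨G, ⟨u, v⟩, x, y⟩ ⟨G', ⟨u', v'⟩, x', y'⟩ ⟨-, a, b, p, -⟩ ⟨-, a', b', p', -⟩ e
    simp only [Prod.mk.injEq] at e ⊢
    obtain ⟨e, ⟨rfl, rfl⟩, rfl, rfl⟩ := e
    exact ⟨(p.val a.1 b.1).inj (p'.val a'.1 b'.1) e, ⟨rfl, rfl⟩, rfl, rfl⟩

lemma many {k d : ℕ} {G0 : SimpleGraph V} (h0 : Gd k d G0)
    (hn : 100 * (d + 1 : ℝ) ^ (2 * (k + 1)) ≤ Fintype.card V)
    (hd : 32 * (Real.log (Fintype.card V) + 2) ≤ d) :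
    ∃ G, (∀ w, RI (k + 1) G0 G w) ∧ ¬ Nonempty (G0 ≃g G) := by
  by_contra! hc
  have n1 : (1 : ℝ) ≤ Fintype.card V := by
    have : (1 : ℝ) ≤ (d + 1 : ℝ) ^ (2 * (k + 1)) := one_le_pow₀ (by simp)
    linarith
  have l0 := Real.log_nonneg n1
  obtain ⟨c, rfl⟩ : ∃ c, d = c + 1 := Nat.exists_eq_succ_of_ne_zero (by
    rintro rfl; simp at hd; linarith)
  have k1 : ∀ i : ℕ, (i : ℝ) ≤ Fintype.card V * (c + 1 : ℕ) / 32 →
      Real.exp i ≤ cnt (CC k (c + 1) G0 i) := by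
    intro i
    induction i with
    | zero =>
      refine fun _ => le_trans (by simp [cnt]) (cnt_mono (p := fun G => G = G0) ?_)
      rintro _ rfl
      exact ⟨h0, fun w => ⟨id, rfl, Set.bijOn_id _, fun _ _ _ _ => Iff.rfl⟩,
        by rw [cnt_false (fun z h => h.2 h.1)]; simp⟩
    | succ i ih =>
      intro hi
      have a := grow h0.1 hn i
      have b := ih (le_trans (by simp) hi)
      have e := Real.exp_one_lt_d9
      have := cnt_nonneg (CC k (c + 1) G0 i)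
      have p : (0 : ℝ) < (i + 1 : ℕ) := by positivity
      have f : 16 * ((4 * (i + 1 : ℕ) : ℝ) * (4 * (i + 1 : ℕ))) ≤
          Fintype.card V * (c + 1 : ℕ) / 2 * (Fintype.card V * (c + 1 : ℕ) / 2) := by nlinarith
      have g := le_of_mul_le_mul_right ((mul_assoc _ _ _).le.trans
        ((mul_le_mul_of_nonneg_left f this).trans a)) (by positivity)
      rw [Nat.cast_succ, Real.exp_add]
      nlinarith [Real.exp_pos (i : ℝ)]
  have k2 := (k1 _ (Nat.floor_le (by positivity))).trans ((cnt_surj (p := fun _ : V → V => True)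
    (fun f => G0.comap f) (fun G hG => by
      obtain ⟨e⟩ := hc G hG.2.1
      exact ⟨e.symm, trivial, by ext a b; simp [e.symm.map_adj_iff]⟩)).trans (cnt_le_card _))
  rw [Fintype.card_fun, Nat.cast_pow, ← Real.le_log_iff_exp_le (by positivity), Real.log_pow] at k2
  have := Nat.lt_floor_add_one (Fintype.card V * (c + 1 : ℕ) / 32 : ℝ)
  nlinarith

end Pool.Agent.H.MP_c07d40_pr
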