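import Pool.Agent.H.MP_c07d40_pr.B

set_option linter.unusedSectionVars false

namespace Pool.Agent.H.MP_c07d40_pr
open Finset Pool.Agent.H.MP_e84969_co Pool.Agent.H.MP_c4b7b1_co Filter

lemma exS (n : ℕ) [NeZero n] (d : ℕ) (h : d < n) (ev : Even (n * d)) :
    ∃ S : Finset (ZMod n), 0 ∉ S ∧ (∀ a ∈ S, -a ∈ S) ∧ S.card = d := by
  induction d using Nat.strong_induction_on with
  | _ d ih =>
  match d with
  | 0 => exact ⟨∅, by simp⟩
  | 1 =>
    obtain ⟨m, rfl⟩ : Even n := by simpa using ev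
    refine ⟨{(m : ZMod (m + m))}, ?_, ?_, rfl⟩
    · rw [mem_singleton, eq_comm, ZMod.natCast_eq_zero_iff]
      exact Nat.not_dvd_of_pos_of_lt (by omega) (by omega)
    · simp only [mem_singleton, forall_eq, neg_eq_iff_add_eq_zero]
      exact_mod_cast ZMod.natCast_self (m + m)
  | d + 2 =>
    obtain ⟨S, s1, s2, s3⟩ := ih d (by omega) (by omega) (by
      rw [mul_add, Nat.even_add] at ev; exact ev.2 (by simp))
    obtain ⟨a, ha⟩ : ∃ a, a ∉ insert 0 (insert ((n / 2 : ℕ) : ZMod n) S) := by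
      by_contra! c
      have := card_le_card (fun a _ => c a : univ ⊆ _)
      have := card_insert_le 0 (insert ((n / 2 : ℕ) : ZMod n) S)
      have := card_insert_le ((n / 2 : ℕ) : ZMod n) S
      simp only [card_univ, ZMod.card] at *
      omega
    simp only [mem_insert, not_or] at ha
    have n1 : a ≠ -a := fun e => ((ZMod.neg_eq_self_iff a).1 e.symm).elim ha.1 (fun f =>
      ha.2.1 (by rw [← ZMod.natCast_zmod_val a]; congr 1; omega))
    have n2 : -a ∉ S := fun e => ha.2.2 (by simpa using s2 _ e)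
    refine ⟨insert a (insert (-a) S), by simp [s1, ha.1, Ne.symm ha.1], ?_, ?_⟩
    · simp only [mem_insert]
      rintro b (rfl | rfl | e)
      · simp
      · simp
      · simp [s2 b e]
    · rw [card_insert_of_notMem (by simp [n1, ha.2.2]), card_insert_of_notMem n2, s3]

lemma exReg (n d : ℕ) (h : d < n) (ev : Even (n * d)) : ∃ G : SimpleGraph (Fin n), Reg d G := by
  obtain ⟨n, rfl⟩ : ∃ m, n = m + 1 := ⟨n - 1, by omega⟩
  obtain ⟨S, s1, s2, s3⟩ := exS (n + 1) d h ev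
  change ∃ G : SimpleGraph (ZMod (n + 1)), Reg d G
  refine ⟨⟨fun a b => b - a ∈ S, ⟨fun a b e => by simpa using s2 _ e⟩, ⟨fun a => by simpa⟩⟩, fun v => ?_⟩
  rw [← s3, dg]
  exact card_nbij' (· - v) (· + v) (fun a e => by simpa using e) (fun a e => by simpa using e)
    (fun a _ => by simp) (fun a _ => by simp)

variable {V : Type} [Fintype V] [DecidableEq V]

lemma bad_le {k K d : ℕ} (h1 : 2 * (k + 1) ≤ K) (h2 : 3 * k + 1 ≤ K) (hd : 1 ≤ d)
    (hn : 4 * (d + 1 : ℝ) ^ K ≤ Fintype.card V) :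
    cnt (fun G : SimpleGraph V => Reg d G ∧ ¬ Gd k d G) ≤
      cnt (Reg (V := V) d) * (400 * ((d + 1) ^ K / Fintype.card V)) := by
  have d1 : (1 : ℝ) ≤ d := by exact_mod_cast hd
  have p : ∀ j ≤ K, (d + 1 : ℝ) ^ j ≤ (d + 1) ^ K := fun j => pow_le_pow_right₀ (by linarith)
  have n0 : (0 : ℝ) < Fintype.card V := lt_of_lt_of_le (by positivity) hn
  have R := cnt_nonneg (Reg (V := V) d)
  have a1 := markov (V := V) d (2 * (k + 1)) hd (by linarith [p _ h1]) (Fintype.card V * d / 100)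
  have a2 := markov (V := V) d (2 * k) hd (by linarith [p (2 * k) (by omega)])
    (Fintype.card V / 100 / (d + 1) ^ k)
  rw [← le_div_iff₀ (by positivity)] at a1 a2
  refine (cnt_or (fun G h => ?_)).trans ((add_le_add a1 a2).trans ?_)
  · simp only [div_lt_iff₀ (by positivity : (0 : ℝ) < (d + 1) ^ k), ← not_le]
    unfold Gd at h
    tauto
  have e : ∀ x : ℝ, x ≤ (d + 1) ^ K → cnt (Reg (V := V) d) * (200 * (x / Fintype.card V)) ≤
    cnt (Reg (V := V) d) * (200 * ((d + 1) ^ K / Fintype.card V)) := fun x h => by gcongr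
  have e1 := e _ (p _ h1)
  have e2 := e (d * (d + 1) ^ (3 * k)) (le_trans (by rw [pow_succ']; gcongr; simp) (p _ h2))
  refine le_trans (le_of_eq ?_) ((add_le_add e1 e2).trans (le_of_eq (by ring)))
  field_simp; ring

def ball {W : Type} (G : SimpleGraph W) (r : ℕ) (v : W) : Set W := {w | G.edist v w ≤ r}

def Recon (r : ℕ) {n : ℕ} (G : SimpleGraph (Fin n)) : Prop :=
  ∀ (W : Type) (G' : SimpleGraph W) (φ : Fin n ≃ W),
    (∀ v, ∃ f : G.induce (ball G r v) ≃g G'.induce (ball G' r (φ v)),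
      (f ⟨v, by simp [ball]⟩).1 = φ v) → Nonempty (G ≃g G')

def Rg (d n : ℕ) : Set (SimpleGraph (Fin n)) := {G | ∀ v, (G.neighborSet v).ncard = d}

noncomputable def pNot (r d n : ℕ) : ℝ :=
  ({G ∈ Rg d n | ¬ Recon r G}.ncard : ℝ) / (Rg d n).ncard

lemma Recon.ri {r n : ℕ} {G G' : SimpleGraph (Fin n)} (h : Recon r G) (i : ∀ w, RI r G G' w) :
    Nonempty (G ≃g G') := by
  refine h _ G' (Equiv.refl _) (fun v => ?_)
  obtain ⟨g, g1, g2, g3⟩ := i v
  have e : ∀ G : SimpleGraph (Fin n), {a | Wk G r v a} = ball G r v := fun G => by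
    ext a; exact (edist_iff _ _ _).symm
  rw [e, e] at g2
  exact ⟨⟨g2.equiv g, fun {a b} => (g3 a b ((edist_iff _ _ _).1 a.2) ((edist_iff _ _ _).1 b.2)).symm⟩, g1⟩

theorem main (k K : ℕ) (h1 : 2 * (k + 1) ≤ K) (h2 : 3 * k + 1 ≤ K) (ε : ℝ) (hε : 0 < ε) (d : ℕ → ℕ)
    (h : ∀ᶠ n : ℕ in atTop, Even (n * d n) ∧ (n : ℝ) ^ ε ≤ d n ∧ (d n : ℝ) ≤ n ^ (1 / (K : ℝ) - ε)) :
    Tendsto (fun n => pNot (k + 1) (d n) n) atTop (nhds 1) := by
  have K0 : (0 : ℝ) < K := by exact_mod_cast (by omega)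
  have t1 : Tendsto (fun n : ℕ => ((d n : ℝ) + 1) ^ K / n) atTop (nhds 0) := by
    have := ((tendsto_rpow_neg_atTop (mul_pos hε K0)).comp tendsto_natCast_atTop_atTop).const_mul (2 ^ K)
    rw [mul_zero] at this
    refine squeeze_zero' (Eventually.of_forall (fun n => by positivity)) ?_ this
    filter_upwards [h, eventually_ge_atTop 1] with n ⟨_, a, b⟩ n1
    have n1 : (1 : ℝ) ≤ n := by exact_mod_cast n1
    have := (Real.one_le_rpow n1 hε.le).trans a
    have c : ((d n : ℝ) + 1) ^ K ≤ (2 * n ^ (1 / (K : ℝ) - ε)) ^ K := by gcongr; linarith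
    rw [mul_pow, ← Real.rpow_mul_natCast (by linarith), sub_mul, one_div_mul_cancel K0.ne', sub_eq_add_neg,
      Real.rpow_add (by linarith), Real.rpow_one] at c
    rw [div_le_iff₀ (by linarith)]
    simpa [mul_comm, mul_assoc, mul_left_comm] using c
  have t2 := ((tendsto_rpow_atTop (half_pos hε)).comp tendsto_natCast_atTop_atTop).eventually_ge_atTop
    (64 / ε + 64)
  have t3 := (t1.const_mul 400).const_sub 1
  rw [mul_zero, sub_zero] at t3
  refine tendsto_of_tendsto_of_tendsto_of_le_of_le' t3 tendsto_const_nhds ?_ (Eventually.of_forall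
    (fun n => div_le_one_of_le₀ (Nat.cast_le.2 (Set.ncard_le_ncard (fun _ h => h.1))) (by positivity)))
  filter_upwards [h, eventually_ge_atTop 1, t2, t1.eventually_le_const (by norm_num : (0 : ℝ) < 1 / 100)]
    with n ⟨ev, a, b⟩ n1 y z
  have n1 : (1 : ℝ) ≤ n := by exact_mod_cast n1
  have d1 := (Real.one_le_rpow n1 hε.le).trans a
  rw [div_le_iff₀ (by linarith)] at z
  have p : ∀ j ≤ K, (d n + 1 : ℝ) ^ j ≤ (d n + 1) ^ K := fun j => pow_le_pow_right₀ (by linarith)
  have p0 : (0 : ℝ) ≤ (d n + 1) ^ K := by positivity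
  have l : 32 * (Real.log n + 2) ≤ d n := by
    have l1 := Real.log_le_rpow_div (x := n) (by linarith) (half_pos hε)
    have l2 : (n : ℝ) ^ ε = n ^ (ε / 2) * n ^ (ε / 2) := by rw [← Real.rpow_add (by linarith)]; simp
    have l3 : 0 < 64 / ε := by positivity
    simp only [Function.comp] at y
    generalize (n : ℝ) ^ (ε / 2) = x at *
    have l4 : x / (ε / 2) * 32 = x * (64 / ε) := by field_simp; ring
    nlinarith
  have e : ∀ G : SimpleGraph (Fin n), G ∈ Rg (d n) n ↔ Reg (d n) G := fun G =>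
    forall_congr' (fun v => by
      have := cnt_adj G v
      rw [← Nat.cast_inj (R := ℝ), ← Nat.cast_inj (R := ℝ) (m := dg G v), ← this]; rfl)
  have e1 : ((Rg (d n) n).ncard : ℝ) = cnt (Reg (V := Fin n) (d n)) := by
    unfold cnt; congr 2; ext G; exact e G
  have p1 : (0 : ℝ) < (Rg (d n) n).ncard := by
    obtain ⟨G, hG⟩ := exReg n (d n) (by
      have := p 1 (by omega)
      exact_mod_cast (by linarith : (d n : ℝ) < n)) ev
    exact_mod_cast (Set.ncard_pos (Set.toFinite _)).2 ⟨_, (e G).2 hG⟩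
  have b1 := bad_le (V := Fin n) h1 h2 (by exact_mod_cast d1 : 1 ≤ d n) (by simp; linarith)
  have b2 := cnt_or (p := Reg (V := Fin n) (d n)) (r := fun G => G ∈ Rg (d n) n ∧ ¬ Recon (k + 1) G)
    (s := fun G => Reg (d n) G ∧ ¬ Gd k (d n) G) (fun G hG => by
      refine (em _).imp (fun g => ⟨(e G).2 hG, fun c => ?_⟩) (fun g => ⟨hG, g⟩)
      obtain ⟨G', x, y⟩ := many g (by have := p _ h1; simp only [Fintype.card_fin]; linarith)
        (by simpa using l)
      exact y (c.ri x))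
  rw [pNot, le_div_iff₀ p1, e1]
  simp only [Fintype.card_fin] at b1
  change _ ≤ cnt (fun G => G ∈ Rg (d n) n ∧ ¬ Recon (k + 1) G)
  linarith

end Pool.Agent.H.MP_c07d40_pr
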